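import Pool.Agent.V1126.ZwrZChain

/-!
# Uncountable chains of quasi-parabolic hyperbolic structures on free groups

Every group that maps onto `ℤ ≀ ℤ`, in particular every free group of finite rank at least two, has an
uncountable chain of quasi-parabolic hyperbolic structures.
-/

set_option autoImplicit false

namespace Pool.Agent.Results.MP_484ff1_al.FreeGroupChain

open Pool.Agent.V1126.QP Pool.Agent.V1126.QP.ZwrZ

theorem zwrz_ext {g h : ZwrZ} (h1 : ∀ i, fn g i = fn h i) (h2 : kk g = kk h) : g = h := by
  refine SemidirectProduct.ext ?_ ?_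
  · apply Multiplicative.toAdd.injective
    exact Finsupp.ext h1
  · exact Multiplicative.toAdd.injective h2

theorem kk_zpow (n : ℤ) : kk (tt ^ n) = n := by
  cases n with
  | ofNat n => rw [Int.ofNat_eq_natCast, zpow_natCast, kk_tt_pow]
  | negSucc n => rw [zpow_negSucc, kk_inv, kk_tt_pow]; rfl

theorem fn_zpow (n i : ℤ) : fn (tt ^ n) i = 0 := by
  cases n with
  | ofNat n => rw [Int.ofNat_eq_natCast, zpow_natCast, fn_tt_pow]
  | negSucc n => rw [zpow_negSucc, fn_inv, fn_tt_pow]; rfl

theorem el_eq (i n : ℤ) : el i n = tt ^ i * (el 0 1) ^ n * (tt ^ i)⁻¹ := by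
  have h0 : ∀ n : ℤ, el 0 n = (el 0 1) ^ n := by
    intro n
    have h1 : el 0 n = SemidirectProduct.inl ((Multiplicative.ofAdd (Finsupp.single (0 : ℤ) (1 : ℤ))) ^ n) := by
      change SemidirectProduct.inl _ = SemidirectProduct.inl _
      congr 1
      apply Multiplicative.toAdd.injective
      rw [toAdd_zpow, toAdd_ofAdd, toAdd_ofAdd, Finsupp.smul_single]
      simp
    rw [h1, map_zpow]
    rfl
  rw [← h0]
  apply zwrz_ext
  · intro j
    rw [fn_mul, fn_mul, fn_zpow, fn_inv, fn_zpow, kk_zpow, fn_el, fn_el]
    by_cases h : i = j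
    · subst h; simp
    · rw [if_neg h, if_neg (by omega)]; simp
  · rw [kk_mul, kk_mul, kk_inv, kk_el, kk_el]; ring

/-- The homomorphism from the free group of rank `n` to `ℤ ≀ ℤ` that sends the first generator to the
generator of the cyclic factor and all others to `1` at position `0`. -/
noncomputable def toWr (n : ℕ) [NeZero n] : FreeGroup (Fin n) →* ZwrZ :=
  FreeGroup.lift fun i => if i = 0 then tt else el 0 1

theorem toWr_surjective (n : ℕ) [NeZero n] (hn : 2 ≤ n) : Function.Surjective (toWr n) := by
  have ht : tt ∈ (toWr n).range := ⟨FreeGroup.of 0, by simp [toWr]⟩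
  have hu : el 0 1 ∈ (toWr n).range :=
    ⟨FreeGroup.of ⟨1, by omega⟩, by
      have : (⟨1, by omega⟩ : Fin n) ≠ 0 := by
        intro h
        have := congrArg Fin.val h
        simp at this
      simp [toWr, this]⟩
  have hel : ∀ i m : ℤ, el i m ∈ (toWr n).range := by
    intro i m
    rw [el_eq]
    exact Subgroup.mul_mem _ (Subgroup.mul_mem _ (Subgroup.zpow_mem _ ht _)
      (Subgroup.zpow_mem _ hu _)) (Subgroup.inv_mem _ (Subgroup.zpow_mem _ ht _))
  have hinl : ∀ x : ℤ →₀ ℤ,
      (SemidirectProduct.inl (Multiplicative.ofAdd x) : ZwrZ) ∈ (toWr n).range := by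
    intro x
    induction x using Finsupp.induction_linear with
    | zero => exact Subgroup.one_mem _
    | add x y hx hy =>
      have : (SemidirectProduct.inl (Multiplicative.ofAdd (x + y)) : ZwrZ) =
          SemidirectProduct.inl (Multiplicative.ofAdd x) *
            SemidirectProduct.inl (Multiplicative.ofAdd y) := by
        rw [ofAdd_add, map_mul]
      rw [this]
      exact Subgroup.mul_mem _ hx hy
    | single i m => exact hel i m
  intro g
  have hg : g = SemidirectProduct.inl (Multiplicative.ofAdd (fn g)) * tt ^ (kk g) := by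
    apply zwrz_ext
    · intro i
      rw [fn_mul, fn_zpow, add_zero]
      rfl
    · rw [kk_mul, kk_zpow]
      have : kk (SemidirectProduct.inl (Multiplicative.ofAdd (fn g)) : ZwrZ) = 0 := rfl
      rw [this, zero_add]
  have : g ∈ (toWr n).range := by
    rw [hg]
    exact Subgroup.mul_mem _ (hinl _) (Subgroup.zpow_mem _ ht _)
  exact this

/-- **Main theorem.** For every `n ≥ 2` the free group of rank `n` is a finitely generated group whose
poset of quasi-parabolic hyperbolic structures contains an uncountable chain. -/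
theorem result : ∀ n : ℕ, 2 ≤ n → Group.FG (FreeGroup (Fin n)) ∧
    ∃ C : Set (Hqp (FreeGroup (Fin n))), IsChain (· ≤ ·) C ∧ ¬ C.Countable := by
  intro n hn
  haveI : NeZero n := ⟨by omega⟩
  exact ⟨inferInstance, ZwrZ.exists_chain (toWr n) (toWr_surjective n hn)⟩

end Pool.Agent.Results.MP_484ff1_al.FreeGroupChain
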